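import Pool.Agent.Helper18.NF.Stmts

set_option autoImplicit false

/-! # GOD : at good places the elements `B(δ^j f) / B(f)` are units -/

namespace Pool.Agent.Helper18.NF

open Pool.Agent.Helper14.BSC Polynomial

section

variable {k Ω : Type} [Field k] [Field Ω] [Algebra k Ω] {D : Sec k Ω} {p : ℕ} [Fact p.Prime]
  {σ : k →+* ℂ_[p]}

theorem god_sub_le (a b : ℂ_[p]) : ‖a - b‖ ≤ max ‖a‖ ‖b‖ := by
  have h := IsUltrametricDist.norm_add_le_max a (-b)
  rwa [← sub_eq_add_neg, norm_neg] at h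

/-- `x` is integral at the place `P` -/
def god_Int (P : Place D p σ) (x : LL D) : Prop := ∃ z, fin_Val P x z ∧ ‖z‖ ≤ 1

theorem god_a [CharZero k] [IsAlgClosed Ω] (hPLV : ST_PLV) (hGIN : ST_GIN) {A B : k[X]} (hd : Dyn A B)
    (hg : Good σ A B) (P : Place D p σ) {x : LL D} (hx : NC D x) (hx' : NC D (dl A B x))
    (hn : ¬ god_Int P x) :
    ¬ god_Int P (dl A B x) ∧ ∃ v, fin_Val P (aeval (dl A B x) B / aeval x B) v ∧ ‖v‖ = 1 := by
  obtain ⟨h1, h2, h3, h4⟩ := hPLV k Ω D A B hd p σ P x hx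
  obtain ⟨g1, g2, g3⟩ := hGIN k A B hd p σ hg
  obtain ⟨_, _, hA, hB, _⟩ := hg
  by_cases hC : x ∈ P.C
  · have hz : fin_Val P x (P.φ ⟨x, hC⟩) := ⟨hC, rfl⟩
    set z := P.φ ⟨x, hC⟩ with hzdef
    have hz1 : 1 < ‖z‖ := by
      by_contra h
      exact hn ⟨z, hz, not_lt.1 h⟩
    obtain ⟨e1, e2⟩ := g2 z hz1
    have hz0 : (0 : ℝ) < ‖z‖ := lt_trans one_pos hz1
    have hBz : (B.map σ).eval z ≠ 0 := by
      intro h
      rw [h, norm_zero] at e2
      exact absurd e2.symm (pow_pos hz0 _).ne'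
    have hv := h2 z hz hBz
    have hnorm : ‖(A.map σ).eval z / (B.map σ).eval z‖ = ‖z‖ := by
      rw [norm_div, e1, e2, hd.deg, pow_succ]
      field_simp
    obtain ⟨_, e4⟩ := g2 _ (by rw [hnorm]; exact hz1 : 1 < ‖(A.map σ).eval z / (B.map σ).eval z‖)
    refine ⟨?_, _, fin_div ((hPLV k Ω D A B hd p σ P _ hx').1 B _ hv) (h1 B z hz) hBz, ?_⟩
    · rintro ⟨w, hw, hw1⟩
      rw [fin_uniq hw hv, hnorm] at hw1
      exact absurd hw1 (not_le.2 hz1)
    · rw [norm_div, e4, hnorm, e2]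
      exact div_self (pow_pos hz0 _).ne'
  · obtain ⟨h5, h6⟩ := h4 hC
    refine ⟨?_, _, h6, ?_⟩
    · rintro ⟨w, hw, _⟩
      exact h5 hw.1
    · rw [norm_pow, map_div₀, norm_div, hA, hB]
      simp

theorem god_c [CharZero k] [IsAlgClosed Ω] (hPLV : ST_PLV) (hGIN : ST_GIN) {A B : k[X]} (hd : Dyn A B)
    (hg : Good σ A B) (P : Place D p σ) {x : LL D} (hx : NC D x) {z : ℂ_[p]} (hz : fin_Val P x z)
    (hz1 : ‖z‖ ≤ 1) (hI : god_Int P (dl A B x)) :
    ‖(B.map σ).eval z‖ = 1 := by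
  obtain ⟨h1, h2, h3, h4⟩ := hPLV k Ω D A B hd p σ P x hx
  obtain ⟨g1, g2, g3⟩ := hGIN k A B hd p σ hg
  obtain ⟨e1, e2, e3⟩ := g1 z hz1
  by_contra hne
  have hlt : ‖(B.map σ).eval z‖ < 1 := lt_of_le_of_ne e2 hne
  obtain ⟨w, hw, hw1⟩ := hI
  by_cases hB : (B.map σ).eval z = 0
  · exact h3 z hz hB hw.1
  · have h5 := fin_uniq hw (h2 z hz hB)
    rw [h5, norm_div, e3 hlt] at hw1
    have hpos : 0 < ‖(B.map σ).eval z‖ := norm_pos_iff.2 hB
    rw [div_le_one hpos] at hw1
    exact absurd hw1 (not_le.2 hlt)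

theorem god_b [CharZero k] [IsAlgClosed Ω] (hPLV : ST_PLV) {A B : k[X]} (hd : Dyn A B)
    (P : Place D p σ) {x : LL D} (hx : NC D x) {z : ℂ_[p]} (hz : fin_Val P x z)
    (hB : ‖(B.map σ).eval z‖ = 1) :
    fin_Val P (dl A B x) ((A.map σ).eval z / (B.map σ).eval z) := by
  obtain ⟨h1, h2, h3, h4⟩ := hPLV k Ω D A B hd p σ P x hx
  refine h2 z hz ?_
  intro h
  rw [h, norm_zero] at hB
  exact zero_ne_one hB

theorem god_d [CharZero k] [IsAlgClosed Ω] (hPLV : ST_PLV) (hGIN : ST_GIN) {A B : k[X]} (hd : Dyn A B)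
    (hg : Good σ A B) (P : Place D p σ) {x x' : LL D} (hx : ∀ i, NC D ((dl A B)^[i] x))
    (hx' : ∀ i, NC D ((dl A B)^[i] x')) {z z' : ℂ_[p]} (hz : fin_Val P x z) (hz1 : ‖z‖ ≤ 1)
    (hz' : fin_Val P x' z') (hz1' : ‖z'‖ ≤ 1) (hzz : ‖z - z'‖ < 1) (m : ℕ)
    (hI : ∀ i ≤ m, god_Int P ((dl A B)^[i] x)) :
    ∃ w w', fin_Val P ((dl A B)^[m] x) w ∧ fin_Val P ((dl A B)^[m] x') w' ∧ ‖w‖ ≤ 1 ∧ ‖w'‖ ≤ 1 ∧
      ‖w - w'‖ < 1 := by
  induction m with
  | zero => exact ⟨z, z', hz, hz', hz1, hz1', hzz⟩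
  | succ m ih =>
    obtain ⟨w, w', hw, hw', hw1, hw1', hww⟩ := ih (fun i hi => hI i (hi.trans (Nat.le_succ m)))
    have hI' := hI (m + 1) le_rfl
    rw [Function.iterate_succ_apply'] at hI'
    have hB := god_c hPLV hGIN hd hg P (hx m) hw hw1 hI'
    obtain ⟨g1, g2, g3⟩ := hGIN k A B hd p σ hg
    obtain ⟨e1, e2⟩ := g3 w w' hw1 hw1' hww
    obtain ⟨a1, b1, _⟩ := g1 w hw1
    obtain ⟨a2, b2, _⟩ := g1 w' hw1'
    have hB' : ‖(B.map σ).eval w'‖ = 1 := by
      refine le_antisymm b2 ?_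
      by_contra h
      rw [not_le] at h
      have h1 : ‖(B.map σ).eval w‖ ≤ max ‖(B.map σ).eval w - (B.map σ).eval w'‖ ‖(B.map σ).eval w'‖ := by
        have := IsUltrametricDist.norm_add_le_max ((B.map σ).eval w - (B.map σ).eval w')
          ((B.map σ).eval w')
        rwa [sub_add_cancel] at this
      rw [hB] at h1
      exact absurd h1 (not_le.2 (max_lt e2 h))
    rw [Function.iterate_succ_apply', Function.iterate_succ_apply']
    have hBn : (B.map σ).eval w ≠ 0 := by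
      intro h
      rw [h, norm_zero] at hB
      exact zero_ne_one hB
    have hBn' : (B.map σ).eval w' ≠ 0 := by
      intro h
      rw [h, norm_zero] at hB'
      exact zero_ne_one hB'
    refine ⟨_, _, god_b hPLV hd P (hx m) hw hB, god_b hPLV hd P (hx' m) hw' hB', ?_, ?_, ?_⟩
    · rw [norm_div, hB, div_one]; exact a1
    · rw [norm_div, hB', div_one]; exact a2
    · have e : (A.map σ).eval w / (B.map σ).eval w - (A.map σ).eval w' / (B.map σ).eval w' =
          (((A.map σ).eval w - (A.map σ).eval w') * (B.map σ).eval w' -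
            (A.map σ).eval w' * ((B.map σ).eval w - (B.map σ).eval w')) /
            ((B.map σ).eval w * (B.map σ).eval w') := by
        field_simp
        ring
      rw [e, norm_div, norm_mul, hB, hB', mul_one, div_one]
      have h2 := god_sub_le (((A.map σ).eval w - (A.map σ).eval w') *
        (B.map σ).eval w') ((A.map σ).eval w' * ((B.map σ).eval w - (B.map σ).eval w'))
      refine lt_of_le_of_lt h2 (max_lt ?_ ?_)
      · rw [norm_mul, hB', mul_one]; exact e1
      · rw [norm_mul]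
        exact lt_of_le_of_lt (mul_le_of_le_one_left (norm_nonneg _) a2) e2

theorem god_e [CharZero k] [IsAlgClosed Ω] (hDLB : ST_DLB) (hPLV : ST_PLV) (hGIN : ST_GIN)
    (hRSF : ST_RSF) {A B : k[X]} (hd : Dyn A B)
    (hg : Good σ A B) (P : Place D p σ) {f : LL D} (hf : NC D f) (hb : Back D A B f)
    (hfI : god_Int P f) (m : ℕ) : god_Int P ((dl A B)^[m] f) := by
  obtain ⟨-, hD⟩ := hDLB k Ω D
  obtain ⟨d1, d2, d3⟩ := hD A B hd
  by_contra hm
  have hstep : ∀ x : LL D, NC D x → god_Int P (dl A B x) → god_Int P x := by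
    intro x hx h
    by_contra h'
    exact (god_a hPLV hGIN hd hg P hx (d1 x hx 1) h').1 h
  -- minimal m
  classical
  have hex : ∃ m, ¬ god_Int P ((dl A B)^[m] f) := ⟨m, hm⟩
  set m0 := Nat.find hex with hm0
  have hm1 : ¬ god_Int P ((dl A B)^[m0] f) := Nat.find_spec hex
  have hm2 : ∀ i < m0, god_Int P ((dl A B)^[i] f) := fun i hi => not_not.1 (Nat.find_min hex hi)
  have hm3 : m0 ≠ 0 := by
    intro h
    rw [h] at hm1
    exact hm1 hfI
  choose g hgN using hb
  have hgNC : ∀ N, NC D (g N) := fun N => d2 f (g N) N hf (hgN N)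
  -- all the iterates before `N + m0` are integral
  have hback : ∀ (N : ℕ) (x : LL D), NC D x → god_Int P ((dl A B)^[N] x) → ∀ i ≤ N,
      god_Int P ((dl A B)^[i] x) := by
    intro N
    induction N with
    | zero => intro x _ h i hi; rw [Nat.le_zero.1 hi]; exact h
    | succ N ih =>
      intro x hx h i hi
      rcases Nat.lt_or_ge N i with h1 | h1
      · have : i = N + 1 := by omega
        rw [this]; exact h
      · refine ih x hx ?_ i h1
        rw [Function.iterate_succ_apply'] at h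
        exact hstep _ (d1 x hx N) h
  have hgI : ∀ N, ∀ i < N + m0, god_Int P ((dl A B)^[i] (g N)) := by
    intro N i hi
    rcases Nat.lt_or_ge N i with h1 | h1
    · have e : i = (i - N) + N := by omega
      rw [e, Function.iterate_add_apply, hgN N]
      exact hm2 _ (by omega)
    · refine hback N (g N) (hgNC N) ?_ i h1
      rw [hgN N]; exact hfI
  have hgn : ∀ N, ¬ god_Int P ((dl A B)^[N + m0] (g N)) := by
    intro N
    rw [Nat.add_comm, Function.iterate_add_apply, hgN N]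
    exact hm1
  obtain ⟨N, N', hNN, z, z', hz, hz', hzz⟩ := hRSF k Ω D p σ P g (fun N => hgI N 0 (by omega))
  have hz1 : ‖z‖ ≤ 1 := by
    obtain ⟨w, hw, hw1⟩ := hgI N 0 (by omega)
    rw [fin_uniq hz hw]; exact hw1
  have hz1' : ‖z'‖ ≤ 1 := by
    obtain ⟨w, hw, hw1⟩ := hgI N' 0 (by omega)
    rw [fin_uniq hz' hw]; exact hw1
  obtain ⟨w, w', _, hw', _, hw1', _⟩ := god_d hPLV hGIN hd hg P (x := g N') (x' := g N)
    (fun i => d1 _ (hgNC N') i) (fun i => d1 _ (hgNC N) i) hz' hz1' hz hz1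
    (by rw [norm_sub_rev]; exact hzz) (N + m0) (fun i hi => hgI N' i (by omega))
  exact hgn N ⟨w', hw', hw1'⟩

end

theorem st_GOD (hDLB : ST_DLB) (hPLV : ST_PLV) (hGIN : ST_GIN) (hRSF : ST_RSF) : ST_GOD := by
  intro k Ω _ _ _ _ _ D A B hd p _ σ hg P f hf hb j
  obtain ⟨hne, hD⟩ := hDLB k Ω D
  obtain ⟨d1, d2, d3⟩ := hD A B hd
  have hB0 : B ≠ 0 := by
    intro h
    have := hd.pos
    rw [h, natDegree_zero] at this
    exact absurd this (by norm_num)
  by_cases hfI : god_Int P f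
  · have hall := god_e hDLB hPLV hGIN hRSF hd hg P hf hb hfI
    have hunit : ∀ m, ∃ v, fin_Val P (aeval ((dl A B)^[m] f) B) v ∧ ‖v‖ = 1 := by
      intro m
      obtain ⟨z, hz, hz1⟩ := hall m
      have h1 := hall (m + 1)
      rw [Function.iterate_succ_apply'] at h1
      exact ⟨_, (hPLV k Ω D A B hd p σ P _ (d1 f hf m)).1 B z hz,
        god_c hPLV hGIN hd hg P (d1 f hf m) hz hz1 h1⟩
    obtain ⟨v, hv, hv1⟩ := hunit j
    obtain ⟨w, hw, hw1⟩ := hunit 0
    refine ⟨v / w, fin_div hv hw ?_, ?_⟩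
    · intro h
      rw [h, norm_zero] at hw1
      exact zero_ne_one hw1
    · rw [norm_div, hv1, hw1, div_one]
  · have hall : ∀ m, ¬ god_Int P ((dl A B)^[m] f) ∧
        ∃ v, fin_Val P (Gm D A B f m) v ∧ ‖v‖ = 1 := by
      intro m
      induction m with
      | zero =>
        refine ⟨hfI, 1, ?_, norm_one⟩
        have e : Gm D A B f 0 = algebraMap k (LL D) 1 := by
          rw [map_one]
          exact div_self (hne f hf B hB0)
        rw [e]
        have := fin_const P 1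
        rwa [map_one σ] at this
      | succ m ih =>
        obtain ⟨ih1, v, hv, hv1⟩ := ih
        have h1 := d1 f hf m
        have h2 := d1 f hf (m + 1)
        rw [Function.iterate_succ_apply'] at h2
        obtain ⟨a1, u, hu, hu1⟩ := god_a hPLV hGIN hd hg P h1 h2 ih1
        rw [Function.iterate_succ_apply']
        refine ⟨a1, v * u, ?_, by rw [norm_mul, hv1, hu1, mul_one]⟩
        have e : Gm D A B f (m + 1) =
            Gm D A B f m * (aeval (dl A B ((dl A B)^[m] f)) B / aeval ((dl A B)^[m] f) B) := by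
          unfold Gm
          rw [Function.iterate_succ_apply']
          have n1 := hne _ h1 B hB0
          have n2 := hne f hf B hB0
          field_simp
        rw [e]
        exact fin_mul hv hu
    exact (hall j).2

end Pool.Agent.Helper18.NF

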