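import Pool.Agent.Helper18.NF.Stmts
import Pool.Agent.Helper12.BSC.LZQ

set_option autoImplicit false

/-! # NRQ : an element with finite nonzero values, units at almost all primes, has rational norm class -/

namespace Pool.Agent.Helper18.NF

open Pool.Agent.Helper14.BSC Polynomial

section

variable {k Ω : Type} [Field k] [Field Ω] [Algebra k Ω]

theorem nrq_kum [CharZero k] [IsAlgClosed Ω] (hKUM : ST_KUM) (hBOT : ST_BOT) (D : Sec k Ω) (x : LL D)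
    (hx : x ≠ 0) (n : ℕ) (hn : 0 < n) :
    ∃ c : k, c ≠ 0 ∧ ∃ g : LL D, x = algebraMap k (LL D) c * g ^ n := by
  obtain ⟨c, hc, y, hy, h⟩ := hKUM k Ω D ∅ n hn x hx
  obtain ⟨c0, hc0⟩ := hBOT k Ω (c : Acl k Ω) c.2
  have h1 : inc D ∅ c = algebraMap k (LL D) c0 := by
    apply Subtype.ext
    rw [coe_inc, hc0]
    rfl
  refine ⟨c0, ?_, y, ?_⟩
  · rintro rfl
    apply hc
    apply Subtype.ext
    rw [hc0, map_zero]
    rfl
  · rw [h, h1]

theorem nrq_root [CharZero k] [IsAlgClosed Ω] (hROOT : ST_ROOT) (hBOT : ST_BOT) (D : Sec k Ω) (n : ℕ)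
    (hn : 0 < n) (y : LL D) (c : k) (h : y ^ n = algebraMap k (LL D) c) :
    ∃ a : k, y = algebraMap k (LL D) a := by
  obtain ⟨d, hd⟩ := hROOT k Ω D ∅ n hn y (algebraMap k (FF (∅ : Set (Acl k Ω))) c) (by
    rw [h]; apply Subtype.ext; rfl)
  obtain ⟨a, ha⟩ := hBOT k Ω (d : Acl k Ω) d.2
  refine ⟨a, ?_⟩
  rw [hd]
  apply Subtype.ext
  rw [coe_inc, ha]
  rfl

theorem nrq_prod {ι : Type} (s : Finset ι) (n : ℤ) (j : ι → ℤ) (a : ℝ) (ha : a ≠ 0) :
    ∏ i ∈ s, a ^ (n * j i) = a ^ (n * ∑ i ∈ s, j i) := by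
  classical
  induction s using Finset.induction_on with
  | empty => simp
  | insert b s hb ih => rw [Finset.prod_insert hb, Finset.sum_insert hb, ih, mul_add, zpow_add₀ ha]

theorem nrq_local [NumberField k] [IsAlgClosed Ω] (hKUM : ST_KUM) (hROOT : ST_ROOT) (hEFIN : ST_EFIN)
    (hBOT : ST_BOT) (D : Sec k Ω) (x : LL D) (hx : x ≠ 0) (p : ℕ) [hp : Fact p.Prime] (T : TS k ℚ p)
    (P : ∀ i, Place D p (T.σ i)) (v : Fin T.n → ℂ_[p]) (hv : ∀ i, fin_Val (P i) x (v i))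
    (hv0 : ∀ i, v i ≠ 0) :
    ∃ m : ℤ, (∀ n : ℕ, 0 < n → ∀ (c : k) (g : LL D), c ≠ 0 → x = algebraMap k (LL D) c * g ^ n →
      ∃ s : ℤ, padicValRat p (Algebra.norm ℚ c) = m + n * s) ∧ ((∀ i, ‖v i‖ = 1) → m = 0) := by
  choose e N he hN hEN using fun i => hEFIN p (P i).E (P i).finE
  have hp0 : (0 : ℝ) < p := by exact_mod_cast hp.out.pos
  have hp1 : (p : ℝ) ≠ 1 := by exact_mod_cast hp.out.ne_one
  set d : ℕ := ∏ i, e i with hd
  have hd0 : 0 < d := Finset.prod_pos fun i _ => he i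
  have hpow : ∀ i, ∀ w ∈ (P i).E, w ≠ 0 → ∃ j : ℤ, ‖w‖ ^ d = (p : ℝ) ^ j := by
    intro i w hw hw0
    obtain ⟨⟨j, hj⟩, _⟩ := hEN i w hw hw0
    obtain ⟨q, hq⟩ := Finset.dvd_prod_of_mem e (Finset.mem_univ i)
    refine ⟨j * q, ?_⟩
    rw [hd, hq, pow_mul, hj, ← zpow_natCast, ← zpow_mul]
  have key : ∀ n : ℕ, 0 < n → ∀ (c : k) (g : LL D), c ≠ 0 →
      x = algebraMap k (LL D) c * g ^ (d * n) →
      ∃ J : ℤ, (p : ℝ) ^ (-padicValRat p (Algebra.norm ℚ c)) = (∏ i, ‖v i‖) * (p : ℝ) ^ ((n : ℤ) * J) := by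
    intro n hn c g hc hxc
    have hj : ∀ i, ∃ j : ℤ, ‖T.σ i c‖ = ‖v i‖ * (p : ℝ) ^ ((n : ℤ) * j) := by
      intro i
      obtain ⟨hC, hφ⟩ := hv i
      obtain ⟨w, hw, y, hy, hyv, hcy⟩ := (P i).kum ⟨x, hC⟩ (by rw [hφ]; exact hv0 i) (d * n)
        (Nat.mul_pos hd0 hn) ‖v i‖ (norm_pos_iff.2 (hv0 i)) c g hxc
      rw [hφ] at hyv
      have hσc : T.σ i c ≠ 0 := by rw [Ne, map_eq_zero]; exact hc
      have hw0 : w ≠ 0 := by
        rintro rfl
        rw [hcy, zero_pow (Nat.mul_pos hd0 hn).ne', mul_zero] at hσc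
        exact hσc rfl
      have hyn : ‖y‖ = ‖v i‖ := by
        have h1 : y = (y - v i) + v i := by ring
        rw [h1, IsUltrametricDist.norm_add_eq_max_of_norm_ne_norm hyv.ne]
        exact max_eq_right hyv.le
      obtain ⟨j, hj⟩ := hpow i w hw hw0
      refine ⟨j, ?_⟩
      rw [hcy, norm_mul, hyn, norm_pow, pow_mul, hj, ← zpow_natCast, ← zpow_mul, mul_comm j]
    choose j hj using hj
    refine ⟨∑ i, j i, ?_⟩
    have hNc : Algebra.norm ℚ c ≠ 0 := by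
      rw [Ne, Algebra.norm_eq_zero_iff]; exact hc
    have h1 := congrArg norm (T.norm c)
    rw [norm_prod] at h1
    have h2 : T.j (Algebra.norm ℚ c) = algebraMap ℚ ℂ_[p] (Algebra.norm ℚ c) := by
      rw [eq_ratCast T.j, eq_ratCast (algebraMap ℚ ℂ_[p])]
    rw [h2, lzq_norm_rat p _ hNc] at h1
    rw [← h1, ← nrq_prod _ _ _ _ hp0.ne', ← Finset.prod_mul_distrib]
    exact Finset.prod_congr rfl fun i _ => hj i
  obtain ⟨c1, hc1, g1, hx1⟩ := nrq_kum hKUM hBOT D x hx (d * 1) (by omega)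
  obtain ⟨J1, hJ1⟩ := key 1 one_pos c1 g1 hc1 hx1
  set m : ℤ := padicValRat p (Algebra.norm ℚ c1) + J1 with hm
  have hVm : (∏ i, ‖v i‖) = (p : ℝ) ^ (-m) := by
    have h1 : (∏ i, ‖v i‖) = (p : ℝ) ^ (-padicValRat p (Algebra.norm ℚ c1)) *
        ((p : ℝ) ^ (((1 : ℕ) : ℤ) * J1))⁻¹ := by
      rw [hJ1, mul_assoc, mul_inv_cancel₀ (zpow_ne_zero _ hp0.ne'), mul_one]
    rw [h1, ← zpow_neg, ← zpow_add₀ hp0.ne', hm]
    congr 1
    push_cast
    ring
  refine ⟨m, ?_, ?_⟩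
  · intro n hn c g hc hxc
    obtain ⟨c', hc', g', hx'⟩ := nrq_kum hKUM hBOT D x hx (d * n) (Nat.mul_pos hd0 hn)
    obtain ⟨J, hJ⟩ := key n hn c' g' hc' hx'
    rw [hVm, ← zpow_add₀ hp0.ne'] at hJ
    have h1 := zpow_right_injective₀ hp0 hp1 hJ
    have hg0 : g ≠ 0 := by
      rintro rfl
      rw [zero_pow hn.ne', mul_zero] at hxc
      exact hx hxc
    have hc'L : algebraMap k (LL D) c' ≠ 0 := by
      rw [Ne, map_eq_zero]; exact hc'
    obtain ⟨a, ha⟩ := nrq_root hROOT hBOT D n hn (g' ^ d / g) (c / c') (by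
      have h2 : algebraMap k (LL D) c' * g' ^ (d * n) = algebraMap k (LL D) c * g ^ n := by
        rw [← hx', ← hxc]
      rw [div_pow, ← pow_mul, map_div₀, div_eq_div_iff (pow_ne_zero _ hg0) hc'L]
      rw [mul_comm, h2])
    have hg'0 : g' ≠ 0 := by
      rintro rfl
      rw [zero_pow (Nat.mul_pos hd0 hn).ne', mul_zero] at hx'
      exact hx hx'
    have ha0 : a ≠ 0 := by
      rintro rfl
      rw [map_zero, div_eq_zero_iff] at ha
      rcases ha with h | h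
      · exact pow_ne_zero _ hg'0 h
      · exact hg0 h
    have hca : c = c' * a ^ n := by
      apply (algebraMap k (LL D)).injective
      have h2 : algebraMap k (LL D) c' * g' ^ (d * n) = algebraMap k (LL D) c * g ^ n := by
        rw [← hx', ← hxc]
      rw [map_mul, map_pow, ← ha, div_pow, ← pow_mul, mul_div_assoc', h2,
        mul_div_assoc, div_self (pow_ne_zero _ hg0), mul_one]
    refine ⟨-J + padicValRat p (Algebra.norm ℚ a), ?_⟩
    have hNc' : Algebra.norm ℚ c' ≠ 0 := by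
      rw [Ne, Algebra.norm_eq_zero_iff]; exact hc'
    have hNa : Algebra.norm ℚ a ≠ 0 := by
      rw [Ne, Algebra.norm_eq_zero_iff]; exact ha0
    rw [hca, map_mul, map_pow, padicValRat.mul hNc' (pow_ne_zero _ hNa), padicValRat.pow]
    linear_combination (-1 : ℤ) * h1
  · intro h1
    have h2 : (∏ i, ‖v i‖) = 1 := Finset.prod_eq_one fun i _ => h1 i
    rw [h2, ← zpow_zero (p : ℝ)] at hVm
    have h3 := zpow_right_injective₀ hp0 hp1 hVm
    omega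

end

theorem st_NRQ (hKUM : Pool.Agent.Helper14.BSC.ST_KUM) (hROOT : Pool.Agent.Helper14.BSC.ST_ROOT)
    (hEFIN : Pool.Agent.Helper14.BSC.ST_EFIN) (hBOT : Pool.Agent.Helper14.BSC.ST_BOT) : ST_NRQ := by
  intro k Ω _ _ _ _ _ D x hx h1 h2
  obtain ⟨S, hS⟩ := h2
  have hch : ∀ p : ℕ, ∃ m : ℤ, (∀ [Fact p.Prime], ∀ n : ℕ, 0 < n → ∀ (c : k) (g : LL D), c ≠ 0 →
      x = algebraMap k (LL D) c * g ^ n →
      ∃ s : ℤ, padicValRat p (Algebra.norm ℚ c) = m + n * s) ∧ (p.Prime → p ∉ S → m = 0) := by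
    intro p
    by_cases hp : p.Prime
    · have : Fact p.Prime := ⟨hp⟩
      by_cases hpS : p ∈ S
      · obtain ⟨T, P, hP⟩ := h1 p
        choose v hv hv0 using hP
        obtain ⟨m, hm, _⟩ := nrq_local hKUM hROOT hEFIN hBOT D x hx p T P v hv hv0
        exact ⟨m, fun n hn c g hc hxc => hm n hn c g hc hxc, fun _ h => absurd hpS h⟩
      · obtain ⟨T, P, hP⟩ := hS p hpS
        choose v hv hv1 using hP
        obtain ⟨m, hm, hm0⟩ := nrq_local hKUM hROOT hEFIN hBOT D x hx p T P v hv (fun i h => by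
          have := hv1 i
          rw [h, norm_zero] at this
          exact zero_ne_one this)
        exact ⟨m, fun n hn c g hc hxc => hm n hn c g hc hxc, fun _ _ => hm0 hv1⟩
    · exact ⟨0, fun {hf} => absurd hf.out hp, fun h => absurd h hp⟩
  choose m hm hm0 using hch
  classical
  set S' : Finset ℕ := S.filter Nat.Prime with hS'
  have hS'p : ∀ p ∈ S', p.Prime := fun p hp => (Finset.mem_filter.1 hp).2
  set r0 : ℚ := ∏ p ∈ S', (p : ℚ) ^ m p with hr0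
  have hr0ne : r0 ≠ 0 := by
    have : Fact (Nat.Prime 2) := ⟨Nat.prime_two⟩
    exact (lzq_val_prod S' hS'p m 2).1
  have hr0val : ∀ (p : ℕ) [Fact p.Prime], padicValRat p r0 = m p := by
    intro p hp
    rw [hr0, (lzq_val_prod S' hS'p m p).2]
    by_cases hpS : p ∈ S
    · rw [if_pos (Finset.mem_filter.2 ⟨hpS, hp.out⟩)]
    · rw [if_neg (fun h => hpS (Finset.mem_filter.1 h).1), hm0 p hp.out hpS]
  have main : ∀ n : ℕ, 0 < n →
      (∃ c : k, c ≠ 0 ∧ ∃ g : LL D, x = algebraMap k (LL D) c * g ^ n ∧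
        ∃ t : ℚ, Algebra.norm ℚ c = r0 * t ^ n) ∨
      (∃ c : k, c ≠ 0 ∧ ∃ g : LL D, x = algebraMap k (LL D) c * g ^ n ∧
        ∃ t : ℚ, Algebra.norm ℚ c = (-r0) * t ^ n) := by
    intro n hn
    obtain ⟨c, hc, g, hxc⟩ := nrq_kum hKUM hBOT D x hx n hn
    have hNc : Algebra.norm ℚ c ≠ 0 := by
      rw [Ne, Algebra.norm_eq_zero_iff]; exact hc
    obtain ⟨t, ht0, ht⟩ := lzq_pow (Algebra.norm ℚ c / r0) (div_ne_zero hNc hr0ne) n (by
      intro p hp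
      obtain ⟨s, hs⟩ := hm p n hn c g hc hxc
      refine ⟨s, ?_⟩
      rw [padicValRat.div hNc hr0ne, hs, hr0val p]
      ring)
    rcases ht with ht | ht
    · left
      refine ⟨c, hc, g, hxc, t, ?_⟩
      rw [← ht, mul_div_cancel₀ _ hr0ne]
    · right
      refine ⟨c, hc, g, hxc, t, ?_⟩
      rw [neg_mul, ← mul_neg, ← ht, mul_div_cancel₀ _ hr0ne]
  have mono : ∀ (s : ℚ) (n m : ℕ), (∃ c : k, c ≠ 0 ∧ ∃ g : LL D,
        x = algebraMap k (LL D) c * g ^ (n * m) ∧ ∃ t : ℚ, Algebra.norm ℚ c = s * t ^ (n * m)) →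
      (∃ c : k, c ≠ 0 ∧ ∃ g : LL D, x = algebraMap k (LL D) c * g ^ n ∧
        ∃ t : ℚ, Algebra.norm ℚ c = s * t ^ n) := by
    rintro s n m ⟨c, hc, g, hx, t, ht⟩
    refine ⟨c, hc, g ^ m, ?_, t ^ m, ?_⟩
    · rw [hx, ← pow_mul, mul_comm m n]
    · rw [ht, ← pow_mul, mul_comm m n]
  by_cases hp : ∀ n : ℕ, 0 < n → (∃ c : k, c ≠ 0 ∧ ∃ g : LL D, x = algebraMap k (LL D) c * g ^ n ∧
        ∃ t : ℚ, Algebra.norm ℚ c = r0 * t ^ n)
  · exact ⟨r0, hr0ne, hp⟩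
  · push Not at hp
    obtain ⟨n0, hn0, hneg⟩ := hp
    refine ⟨-r0, neg_ne_zero.2 hr0ne, ?_⟩
    intro n hn
    rcases main (n * n0) (Nat.mul_pos hn hn0) with h1 | h1
    · rw [mul_comm n n0] at h1
      obtain ⟨c, hc, g, hx, t, ht⟩ := mono r0 n0 n h1
      exact absurd ht (hneg c hc g hx t)
    · exact mono (-r0) n n0 h1

end Pool.Agent.Helper18.NF

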